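import Mathlib
import Pool.Agent.H54.SPQ.Quad

set_option autoImplicit false

namespace Pool.Agent.Results.MP_ff7b28_co.QuadraticSaving

/-- The word `σ` of length `n` over the alphabet `Fin r` contains the permutation `τ` of `Fin k`
as a pattern: there are positions `p 0 < p 1 < ... < p (k - 1)` such that
`σ (p j) < σ (p j')` holds exactly when `τ j < τ j'`. -/
def ContainsPattern {k r n : ℕ} (σ : Fin n → Fin r) (τ : Equiv.Perm (Fin k)) : Prop :=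
  ∃ p : Fin k → Fin n, StrictMono p ∧ ∀ j j' : Fin k, σ (p j) < σ (p j') ↔ τ j < τ j'

/-- `σ` is a `k`-superpattern: it contains every permutation of `Fin k` as a pattern. -/
def IsSuperpattern (k : ℕ) {r n : ℕ} (σ : Fin n → Fin r) : Prop :=
  ∀ τ : Equiv.Perm (Fin k), ContainsPattern σ τ

/-- There is an absolute constant `c > 0` such that for every real `C > 1` there is `K` such that
for all `k ≥ K` the least length `f(k; ⌊C k⌋)` of a `k`-superpattern over `⌊C k⌋` letters exists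
and is less than `(1 / 2 - c min(C - 1, 1)²) k ^ 2`. -/
theorem result : ∃ c : ℝ, 0 < c ∧ ∀ C : ℝ, 1 < C → ∃ K : ℕ, ∀ k : ℕ, K ≤ k →
    ∃ n : ℕ, IsLeast {l : ℕ | ∃ σ : Fin l → Fin ⌊C * (k : ℝ)⌋₊, IsSuperpattern k σ} n ∧
      (n : ℝ) < (1 / 2 - c * min (C - 1) 1 ^ 2) * (k : ℝ) ^ 2 := by
  classical
  obtain ⟨c, hc, h⟩ := Pool.Agent.H54.SPQ.exists_short_quad
  refine ⟨c, hc, fun C hC => ?_⟩
  obtain ⟨K, hK⟩ := h C hC
  refine ⟨K, fun k hk => ?_⟩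
  obtain ⟨n0, hn0, σ, hσ⟩ := hK k hk
  have hmem : n0 ∈ {l : ℕ | ∃ σ : Fin l → Fin ⌊C * (k : ℝ)⌋₊, IsSuperpattern k σ} := ⟨σ, hσ⟩
  refine ⟨sInf {l : ℕ | ∃ σ : Fin l → Fin ⌊C * (k : ℝ)⌋₊, IsSuperpattern k σ},
    ⟨Nat.sInf_mem ⟨n0, hmem⟩, fun l hl => Nat.sInf_le hl⟩, lt_of_le_of_lt ?_ hn0⟩
  exact_mod_cast Nat.sInf_le hmem

end Pool.Agent.Results.MP_ff7b28_co.QuadraticSaving
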